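import Pool.Agent.Y66.FI.Rings

/-!
# A partial resolution of non-minimal Euler characteristic with proper Fox ideal

There are a finitely generated group `G` and a partial resolution `C` of `G` of length `m = 1`
whose directed Euler characteristic is not minimal, but whose Fox ideal `I_1(C)` is not the whole
group ring `ℤG`.

`G` is a finitely generated subgroup of `Sˣ ⋉ S^d`, where `S = M_2(End(ℤ^ℕ))`.
-/

set_option autoImplicit false

namespace Pool.Agent.Results.MP_cfa383_al.NonMinimalProper

open Pool.Agent.Y66.FI

theorem result : ∃ (G : Type) (_ : Group G) (C : PRes G 1),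
    (∃ M : PRes G 1, M.IsMinimal ∧ M.dchi < C.dchi) ∧ C.foxIdeal ≠ ⊤ :=
  mainB

end Pool.Agent.Results.MP_cfa383_al.NonMinimalProper
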